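import Pool.Agent.Helper75.CR.St2

set_option autoImplicit false

/-! Module P4 of project CR. -/

namespace Pool.Agent.Helper24.CR

open Pool.Agent.Helper75.CR Helper1.IM

theorem hP4 : Pool.Agent.Helper75.CR.StP4 := by
  intro θ
  constructor
  · intro h
    obtain ⟨h1, h2⟩ := h (FA θ) (FA_mem θ) (clFA θ [X 0] (by simp))
    rw [clFA_star, clFA_mul, clFA_mul, clFA_eq] at h1
    rw [clFA_star, clFA_mul, clFA_mul, clFA_eq] at h2
    exact ⟨h1, h2⟩
  · intro h A hA a
    constructor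
    · have h1 := (hA _ _ h.1).2 A rfl (fun _ => a) (X 0) (Y 0) [Y 0] [X 0] rfl rfl
      simpa [evr, evl, X, Y] using h1
    · have h1 := (hA _ _ h.2).2 A rfl (fun _ => a) (X 0) (X 0) [Y 0, X 0] [Y 0] rfl rfl
      simpa [evr, evl, X, Y] using h1

end Pool.Agent.Helper24.CR
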